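import Pool.Agent.J4.H5.FD.Desc

/-!
# Factorizations `2 ^ N + 1 = (k 2 ^ n + 1) (l 2 ^ n + 1)` with `4 n > N`
-/

set_option autoImplicit false

namespace Pool.Agent.J4.H5.FD

/-- the numbers `s` -/
lemma setup {N n k l : ℕ} (hk0 : 1 ≤ k) (hl0 : 1 ≤ l)
    (h : (k * 2 ^ n + 1) * (l * 2 ^ n + 1) = 2 ^ N + 1) :
    ∃ b s : ℕ, N = 3 * n + b ∧ 1 ≤ s ∧ k + l = 2 ^ n * s ∧ k * l + s = 2 ^ n * 2 ^ b := by
  have h2n : 0 < 2 ^ n := by positivity
  have hkl : 1 ≤ k * l := Nat.mul_pos hk0 hl0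
  have h1 : 2 ^ n * (k * l * 2 ^ n + (k + l)) = 2 ^ N := by
    have : (k * 2 ^ n + 1) * (l * 2 ^ n + 1) = 2 ^ n * (k * l * 2 ^ n + (k + l)) + 1 := by ring
    omega
  have hnN : n ≤ N := by
    by_contra hcon
    push Not at hcon
    have h3 : 2 ^ N < 2 ^ n := Nat.pow_lt_pow_right (by norm_num) hcon
    have h4 : 2 ^ n ≤ 2 ^ n * (k * l * 2 ^ n + (k + l)) := Nat.le_mul_of_pos_right _ (by omega)
    omega
  obtain ⟨N1, rfl⟩ := Nat.exists_eq_add_of_le hnN
  have h2 : k * l * 2 ^ n + (k + l) = 2 ^ N1 := by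
    rw [pow_add] at h1
    exact Nat.eq_of_mul_eq_mul_left h2n h1
  have hnN1 : n < N1 := by
    by_contra hcon
    push Not at hcon
    have h3 : 2 ^ N1 ≤ 2 ^ n := Nat.pow_le_pow_right (by norm_num) hcon
    have h4 : 2 ^ n ≤ k * l * 2 ^ n := Nat.le_mul_of_pos_left _ hkl
    omega
  obtain ⟨N2, rfl⟩ := Nat.exists_eq_add_of_le hnN1.le
  have h3 : 2 ^ n ∣ k + l := by
    have h4 : 2 ^ n ∣ k * l * 2 ^ n + (k + l) := by rw [h2, pow_add]; exact Dvd.intro _ rfl
    exact (Nat.dvd_add_right (Dvd.intro_left _ rfl)).mp h4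
  obtain ⟨s, hs⟩ := h3
  have hs0 : 1 ≤ s := by
    rcases Nat.eq_zero_or_pos s with h4 | h4
    · rw [h4, mul_zero] at hs; omega
    · exact h4
  have h4 : k * l + s = 2 ^ N2 := by
    rw [hs, pow_add] at h2
    have h5 : 2 ^ n * (k * l + s) = 2 ^ n * 2 ^ N2 := by rw [← h2]; ring
    exact Nat.eq_of_mul_eq_mul_left h2n h5
  have h5 : n ≤ N2 := by
    by_contra hcon
    push Not at hcon
    have h6 : 2 ^ N2 < 2 ^ n := Nat.pow_lt_pow_right (by norm_num) hcon
    have h7 : k + l ≤ k * l + 1 := by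
      obtain ⟨k', rfl⟩ := Nat.exists_eq_add_of_le hk0
      obtain ⟨l', rfl⟩ := Nat.exists_eq_add_of_le hl0
      nlinarith [Nat.zero_le (k' * l')]
    have h8 : 2 ^ n ≤ 2 ^ n * s := Nat.le_mul_of_pos_right _ hs0
    omega
  obtain ⟨b, rfl⟩ := Nat.exists_eq_add_of_le h5
  exact ⟨b, s, by ring, hs0, hs, by rw [h4, pow_add]⟩

lemma eq_one_of_dvd_two_pow {t : ℤ} (ht : 0 < t) (hodd : Odd t) {b : ℕ} (h : t ∣ 2 ^ b) :
    t = 1 := by
  have h1 : IsCoprime t (2 ^ b) := by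
    refine IsCoprime.pow_right ?_
    rw [Int.isCoprime_iff_gcd_eq_one]
    rw [Int.gcd_comm]
    have h2 := Int.isCoprime_iff_gcd_eq_one.mp (Int.isCoprime_two_left.mpr hodd)
    exact h2
  have h2 : IsUnit t := h1.isUnit_of_dvd' dvd_rfl h
  rcases Int.isUnit_iff.mp h2 with h3 | h3
  · exact h3
  · omega

/-- **The classification.** -/
theorem classify {N n k l : ℕ} (hn : 1 ≤ n) (hk : Odd k) (hl0 : 1 ≤ l)
    (h : (k * 2 ^ n + 1) * (l * 2 ^ n + 1) = 2 ^ N + 1) (h4 : N < 4 * n) :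
    (N = 3 * n ∧ (k = 1 ∨ l = 1)) ∨
      (N + 2 = 4 * n ∧ ((k + 1 = 2 ^ (n - 1) ∧ l = 2 ^ (n - 1) + 1) ∨
        (k = 2 ^ (n - 1) + 1 ∧ l + 1 = 2 ^ (n - 1)))) := by
  have hk0 : 1 ≤ k := hk.pos
  obtain ⟨b, s, hN, hs0, hkl, hkls⟩ := setup hk0 hl0 h
  have hbn : b < n := by omega
  obtain ⟨a', ha'⟩ := Nat.exists_eq_add_of_lt hbn
  -- `n = b + a' + 1`
  set a := a' + 1 with ha
  have hna : n = a + b := by omega
  have ha1 : 1 ≤ a := by omega
  have hlodd : Odd l := by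
    have h1 : Even (k + l) := by
      rw [hkl]
      exact (Nat.even_pow.mpr ⟨even_two, by omega⟩).mul_right _
    exact (Nat.even_add'.mp h1).mp hk
  have hsodd : Odd s := by
    have h1 : Even (k * l + s) := by
      rw [hkls]
      exact (Nat.even_pow.mpr ⟨even_two, by omega⟩).mul_right _
    exact (Nat.even_add'.mp h1).mp (hk.mul hlodd)
  -- integers
  have hK : (0 : ℤ) < k := by exact_mod_cast hk0
  have hS : (0 : ℤ) < s := by exact_mod_cast hs0
  have hSo : Odd (s : ℤ) := by exact_mod_cast hsodd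
  have e1 : (k : ℤ) + l = 2 ^ n * s := by exact_mod_cast hkl
  have e2 : (k : ℤ) * l + s = 2 ^ n * 2 ^ b := by exact_mod_cast hkls
  set T : ℤ := 2 ^ b with hT
  have hT0 : 0 < T := by positivity
  have hQ : (2 : ℤ) ^ n = 2 ^ a * T := by rw [hT, ← pow_add, hna]
  have hpa : (2 : ℤ) ≤ 2 ^ a := by
    calc (2 : ℤ) = 2 ^ 1 := by norm_num
      _ ≤ 2 ^ a := pow_le_pow_right₀ (by norm_num) ha1
  obtain ⟨X, hX⟩ : ∃ X : ℤ, X = s * k - T := ⟨_, rfl⟩
  have e3 : (k : ℤ) ^ 2 = 2 ^ a * T * X + s := by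
    rw [hX, ← hQ]
    linear_combination (k : ℤ) * e1 - e2
  have hX0 : 0 ≤ X := by
    by_contra hcon
    push Not at hcon
    have h1 : (s : ℤ) ≤ s * k := by nlinarith
    have h2 : (s : ℤ) < T := by linarith
    have h3 : 2 ^ a * T * X ≤ - (2 ^ a * T) := by
      have : 0 < 2 ^ a * T := by positivity
      nlinarith
    have h5 : T ≤ 2 ^ a * T := by nlinarith
    nlinarith [sq_nonneg (k : ℤ)]
  have e4 : X ^ 2 - (2 ^ a * (s : ℤ) ^ 2 - 2) * X * T + T ^ 2 = (s : ℤ) ^ 3 := by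
    have h1 : (s : ℤ) * k = X + T := by linarith
    have h2 : (X + T) ^ 2 = (s : ℤ) ^ 2 * (2 ^ a * T * X + s) := by
      rw [← h1, ← e3]; ring
    linear_combination h2
  obtain ⟨t, ht0, hst, -, htT⟩ := descent ha1 hSo hS (X + T).toNat X T hX0 hT0.le rfl e4
  have htodd : Odd t := by
    rw [hst] at hSo
    exact (Int.odd_pow.mp hSo).resolve_right (by norm_num)
  have ht1 : t ^ 3 = 1 := eq_one_of_dvd_two_pow (by positivity) (htodd.pow) htT
  have ht : t = 1 := by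
    have h1 : t ^ 3 = 1 ^ 3 := by rw [ht1]; norm_num
    exact (pow_left_inj₀ ht0.le (by norm_num) (by norm_num)).mp h1
  have hs1 : (s : ℤ) = 1 := by rw [hst, ht]; norm_num
  rw [hs1] at e1 e3 e4 hX
  have hkXT : (k : ℤ) = X + T := by linarith
  have hlX : (l : ℤ) = 2 ^ a * T - X - T := by rw [← hQ]; linarith
  have hcases : a = 1 ∨ a = 2 ∨ 3 ≤ a := by omega
  rcases hcases with ha2 | ha2 | ha2
  · -- `a = 1`
    left
    rw [ha2] at e4
    have h1 : X ^ 2 + T ^ 2 = 1 := by linear_combination e4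
    have h2 : T = 1 := by nlinarith
    have h3 : X = 0 := by nlinarith
    have h5 : b = 0 := by
      by_contra hb
      have h6 : (2 : ℤ) ^ 1 ≤ 2 ^ b := pow_le_pow_right₀ (by norm_num) (by omega)
      rw [hT] at h2
      omega
    refine ⟨by omega, Or.inl ?_⟩
    rw [h3, h2] at hkXT
    exact_mod_cast hkXT
  · -- `a = 2`
    right
    rw [ha2] at e4
    have h1 : (X - T) ^ 2 = 1 := by linear_combination e4
    have hn1 : n - 1 = b + 1 := by omega
    have h2T : (2 : ℤ) ^ (n - 1) = 2 * T := by rw [hn1, hT, pow_succ]; ring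
    refine ⟨by omega, ?_⟩
    have h1' : (X - T - 1) * (X - T + 1) = 0 := by linear_combination h1
    rcases mul_eq_zero.mp h1' with h2 | h2
    · right
      have h3 : (k : ℤ) = 2 ^ (n - 1) + 1 := by rw [h2T]; linarith
      have h5 : (l : ℤ) + 1 = 2 ^ (n - 1) := by rw [h2T, hlX, ha2]; linarith
      exact ⟨by exact_mod_cast h3, by exact_mod_cast h5⟩
    · left
      have h3 : (k : ℤ) + 1 = 2 ^ (n - 1) := by rw [h2T]; linarith
      have h5 : (l : ℤ) = 2 ^ (n - 1) + 1 := by rw [h2T, hlX, ha2]; linarith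
      exact ⟨by exact_mod_cast h3, by exact_mod_cast h5⟩
  · -- `a ≥ 3`
    left
    obtain ⟨c, hc⟩ : ∃ c, a = c + 3 := ⟨a - 3, by omega⟩
    obtain ⟨B, hB⟩ : ∃ B : ℤ, B = 2 ^ (c + 2) - 1 := ⟨_, rfl⟩
    have hc4 : (4 : ℤ) ≤ 2 ^ (c + 2) := by
      calc (4 : ℤ) = 2 ^ 2 := by norm_num
        _ ≤ 2 ^ (c + 2) := pow_le_pow_right₀ (by norm_num) (by omega)
    have hB1 : 1 ≤ B := by omega
    have h2B : (2 : ℤ) ^ a * 1 ^ 2 - 2 = 2 * B := by rw [hB, hc, pow_succ]; ring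
    rw [h2B] at e4
    have e5 : X ^ 2 - 2 * B * X * T + T ^ 2 = 1 := by linear_combination e4
    have hT1 : T = 1 := by
      rcases descent_one hB1 (X + T).toNat X T hX0 hT0.le rfl e5 with ⟨-, h1⟩ | ⟨h1, -⟩
      · exfalso
        have hBodd : Odd B := by
          rw [hB]
          have h2 : Even ((2 : ℤ) ^ (c + 2)) := Int.even_pow.mpr ⟨even_two, by omega⟩
          exact h2.sub_odd odd_one
        have h3 : B = 1 := eq_one_of_dvd_two_pow (by omega) hBodd
          ((Dvd.intro_left 2 rfl).trans h1)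
        omega
      · by_contra hT1
        have hb : b ≠ 0 := by
          rintro hb
          rw [hT, hb, pow_zero] at hT1
          exact hT1 rfl
        have h2 : Even T := by rw [hT]; exact Int.even_pow.mpr ⟨even_two, hb⟩
        exact (Int.not_even_iff_odd.mpr h1) h2
    have hb : b = 0 := by
      by_contra hb
      have h6 : (2 : ℤ) ^ 1 ≤ 2 ^ b := pow_le_pow_right₀ (by norm_num) (by omega)
      rw [hT] at hT1
      omega
    refine ⟨by omega, ?_⟩
    rw [hT1] at e5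
    have h1 : X * (X - 2 * B) = 0 := by linear_combination e5
    rcases mul_eq_zero.mp h1 with h2 | h2
    · left
      rw [h2, hT1] at hkXT
      exact_mod_cast hkXT
    · right
      have h3 : X = 2 * B := by linarith
      have h5 : (l : ℤ) = 1 := by
        rw [hlX, hT1, h3]
        linear_combination h2B
      exact_mod_cast h5

end Pool.Agent.J4.H5.FD
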