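import Mathlib

/-!
# Factorizations `2 ^ N + 1 = (k 2 ^ n + 1) (l 2 ^ n + 1)` with `4 n > N`: descent
-/

set_option autoImplicit false

namespace Pool.Agent.J4.H5.FD

/-- descent for `x ^ 2 - (2 ^ a s ^ 2 - 2) x y + y ^ 2 = s ^ 3` -/
theorem descent {a : ℕ} (ha : 1 ≤ a) {s : ℤ} (hs : Odd s) (hs0 : 0 < s) :
    ∀ (M : ℕ) (x y : ℤ), 0 ≤ x → 0 ≤ y → (x + y).toNat = M →
      x ^ 2 - (2 ^ a * s ^ 2 - 2) * x * y + y ^ 2 = s ^ 3 →
      ∃ t : ℤ, 0 < t ∧ s = t ^ 2 ∧ t ^ 3 ∣ x ∧ t ^ 3 ∣ y := by
  intro M
  induction M using Nat.strong_induction_on with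
  | _ M ih =>
  have key : ∀ x y : ℤ, 0 ≤ x → x ≤ y → (x + y).toNat = M →
      x ^ 2 - (2 ^ a * s ^ 2 - 2) * x * y + y ^ 2 = s ^ 3 →
      ∃ t : ℤ, 0 < t ∧ s = t ^ 2 ∧ t ^ 3 ∣ x ∧ t ^ 3 ∣ y := by
    intro x y hx hxy hM h
    rcases hx.eq_or_lt with hx0 | hx0
    · -- `x = 0`
      subst hx0
      have h1 : y ^ 2 = s ^ 2 * s := by linear_combination h
      have h2 : s ∣ y := by
        rw [← Int.pow_dvd_pow_iff (n := 2) (by norm_num)]
        exact Dvd.intro _ h1.symm
      obtain ⟨w, rfl⟩ := h2
      have h3 : s = w ^ 2 := by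
        have h4 : s ^ 2 * (w ^ 2 - s) = 0 := by linear_combination h1
        rcases mul_eq_zero.mp h4 with h5 | h5
        · exact absurd (pow_eq_zero_iff (by norm_num) |>.mp h5) hs0.ne'
        · linarith
      have hw0 : 0 ≤ w := by
        by_contra hcon
        push Not at hcon
        nlinarith
      have hw : w ≠ 0 := by
        rintro rfl
        rw [h3] at hs0
        simp at hs0
      refine ⟨w, lt_of_le_of_ne hw0 (Ne.symm hw), h3, dvd_zero _, ⟨1, ?_⟩⟩
      rw [h3]; ring
    · -- `0 < x ≤ y`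
      set z : ℤ := (2 ^ a * s ^ 2 - 2) * x - y with hz
      have hyz : y * z = x ^ 2 - s ^ 3 := by rw [hz]; linear_combination -h
      have hy0 : 0 < y := lt_of_lt_of_le hx0 hxy
      have hz1 : 0 ≤ z := by
        by_contra hcon
        push Not at hcon
        -- `z = - v`, `v > 0`
        obtain ⟨v, hv⟩ : ∃ v : ℤ, v = -z := ⟨-z, rfl⟩
        have hv0 : 0 < v := by omega
        have h1 : (x - v) ^ 2 = s ^ 2 * (s - 2 ^ a * x * v) := by
          have h2 : x ^ 2 - (2 ^ a * s ^ 2 - 2) * x * z + z ^ 2 = s ^ 3 := by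
            have h3 : y = (2 ^ a * s ^ 2 - 2) * x - z := by rw [hz]; ring
            rw [h3] at hyz
            linear_combination -hyz
          rw [hv]
          linear_combination h2
        have hpa : (2 : ℤ) ≤ 2 ^ a := by
          calc (2 : ℤ) = 2 ^ 1 := by norm_num
            _ ≤ 2 ^ a := pow_le_pow_right₀ (by norm_num) ha
        have hxv : 0 < x * v := mul_pos hx0 hv0
        have h2 : 0 ≤ s - 2 ^ a * x * v := by
          by_contra hcon2
          push Not at hcon2
          have h3 : s ^ 2 * (s - 2 ^ a * x * v) < 0 := mul_neg_of_pos_of_neg (by positivity) hcon2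
          nlinarith [sq_nonneg (x - v)]
        have h3 : s - 2 ^ a * x * v ≠ 0 := by
          intro h4
          have h5 : s = 2 ^ a * x * v := by linarith
          have h6 : Even s := by
            rw [h5, mul_assoc]
            exact (Int.even_pow.mpr ⟨even_two, by omega⟩).mul_right _
          exact (Int.not_even_iff_odd.mpr hs) h6
        have h4 : 1 ≤ s - 2 ^ a * x * v := by omega
        have h5 : s ^ 2 ≤ (x - v) ^ 2 := by
          rw [h1]
          nlinarith [sq_nonneg s]
        have h6 : 2 * (x * v) < s := by nlinarith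
        have h7 : x < s := by nlinarith
        have h8 : v < s := by nlinarith
        have h9 : |x - v| < s := by rw [abs_lt]; constructor <;> linarith
        have h10 : (x - v) ^ 2 < s ^ 2 := by
          rw [← sq_abs (x - v)]
          exact pow_lt_pow_left₀ h9 (abs_nonneg _) (by norm_num)
        linarith
      have hzy : z < y := by
        by_contra hcon
        push Not at hcon
        have h1 : 0 < s ^ 3 := by positivity
        nlinarith
      have h2 : x ^ 2 - (2 ^ a * s ^ 2 - 2) * x * z + z ^ 2 = s ^ 3 := by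
        have h3 : y = (2 ^ a * s ^ 2 - 2) * x - z := by rw [hz]; ring
        rw [h3] at hyz
        linear_combination -hyz
      obtain ⟨t, ht, hst, hx', hz'⟩ := ih (x + z).toNat (by omega) x z hx0.le hz1 rfl h2
      refine ⟨t, ht, hst, hx', ?_⟩
      have h3 : y = (2 ^ a * s ^ 2 - 2) * x - z := by rw [hz]; ring
      rw [h3]
      exact dvd_sub (dvd_mul_of_dvd_right hx' _) hz'
  intro x y hx hy hM h
  rcases le_total x y with hxy | hxy
  · exact key x y hx hxy hM h
  · obtain ⟨t, ht, hst, h1, h2⟩ := key y x hy hxy (by rw [add_comm]; exact hM) (by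
      linear_combination h)
    exact ⟨t, ht, hst, h2, h1⟩

/-- descent for `x ^ 2 - 2 B x y + y ^ 2 = 1` -/
theorem descent_one {B : ℤ} (hB : 1 ≤ B) :
    ∀ (M : ℕ) (x y : ℤ), 0 ≤ x → 0 ≤ y → (x + y).toNat = M →
      x ^ 2 - 2 * B * x * y + y ^ 2 = 1 → (Odd x ∧ 2 * B ∣ y) ∨ (Odd y ∧ 2 * B ∣ x) := by
  intro M
  induction M using Nat.strong_induction_on with
  | _ M ih =>
  have key : ∀ x y : ℤ, 0 ≤ x → x ≤ y → (x + y).toNat = M →
      x ^ 2 - 2 * B * x * y + y ^ 2 = 1 → (Odd x ∧ 2 * B ∣ y) ∨ (Odd y ∧ 2 * B ∣ x) := by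
    intro x y hx hxy hM h
    rcases hx.eq_or_lt with hx0 | hx0
    · subst hx0
      have h1 : y ^ 2 = 1 := by linear_combination h
      right
      refine ⟨?_, dvd_zero _⟩
      have h2 : y = 1 := by nlinarith
      rw [h2]; exact odd_one
    · set z : ℤ := 2 * B * x - y with hz
      have hyz : y * z = x ^ 2 - 1 := by rw [hz]; linear_combination -h
      have hy0 : 0 < y := lt_of_lt_of_le hx0 hxy
      have hz1 : 0 ≤ z := by
        by_contra hcon
        push Not at hcon
        have h1 : y * z < 0 := mul_neg_of_pos_of_neg hy0 hcon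
        nlinarith
      have hzy : z < y := by
        by_contra hcon
        push Not at hcon
        nlinarith
      have h3 : y = 2 * B * x - z := by rw [hz]; ring
      have h2 : x ^ 2 - 2 * B * x * z + z ^ 2 = 1 := by
        rw [h3] at hyz
        linear_combination -hyz
      rcases ih (x + z).toNat (by omega) x z hx0.le hz1 rfl h2 with ⟨h4, h5⟩ | ⟨h4, h5⟩
      · left
        refine ⟨h4, ?_⟩
        rw [h3]
        exact dvd_sub (Dvd.intro _ rfl) h5
      · right
        refine ⟨?_, h5⟩
        rw [h3]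
        have h6 : Even (2 * B * x) := by rw [mul_assoc]; exact even_two_mul _
        exact h6.sub_odd h4
  intro x y hx hy hM h
  rcases le_total x y with hxy | hxy
  · exact key x y hx hxy hM h
  · rcases key y x hy hxy (by rw [add_comm]; exact hM) (by linear_combination h) with h1 | h1
    · exact Or.inr h1
    · exact Or.inl h1

end Pool.Agent.J4.H5.FD
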