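import Pool.Agent.J4.H5.FD.Cls

/-!
# The case `N = 4 n`, and Fermat numbers
-/

set_option autoImplicit false

namespace Pool.Agent.J4.H5.FD

/-- descent for `x ^ 2 - (s ^ 2 - 2) x y + y ^ 2 = s ^ 3` -/
theorem descent0 {s : ℤ} (hs0 : 0 < s) :
    ∀ (M : ℕ) (x y : ℤ), 0 ≤ x → 0 ≤ y → (x + y).toNat = M →
      x ^ 2 - (s ^ 2 - 2) * x * y + y ^ 2 = s ^ 3 →
      ∃ t : ℤ, s = t ^ 2 ∧ t ∣ x ∧ t ∣ y := by
  intro M
  induction M using Nat.strong_induction_on with
  | _ M ih =>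
  have key : ∀ x y : ℤ, 0 ≤ x → x ≤ y → (x + y).toNat = M →
      x ^ 2 - (s ^ 2 - 2) * x * y + y ^ 2 = s ^ 3 →
      ∃ t : ℤ, s = t ^ 2 ∧ t ∣ x ∧ t ∣ y := by
    intro x y hx hxy hM h
    rcases hx.eq_or_lt with hx0 | hx0
    · -- `x = 0`
      subst hx0
      have h1 : y ^ 2 = s ^ 2 * s := by linear_combination h
      have h2 : s ∣ y := by
        rw [← Int.pow_dvd_pow_iff (n := 2) (by norm_num)]
        exact Dvd.intro _ h1.symm
      obtain ⟨w, rfl⟩ := h2
      have h3 : s = w ^ 2 := by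
        have h4 : s ^ 2 * (w ^ 2 - s) = 0 := by linear_combination h1
        rcases mul_eq_zero.mp h4 with h5 | h5
        · exact absurd (pow_eq_zero_iff (by norm_num) |>.mp h5) hs0.ne'
        · linarith
      exact ⟨w, h3, dvd_zero _, Dvd.intro_left _ rfl⟩
    · -- `0 < x ≤ y`
      obtain ⟨z, hz⟩ : ∃ z : ℤ, z = (s ^ 2 - 2) * x - y := ⟨_, rfl⟩
      have h3 : y = (s ^ 2 - 2) * x - z := by rw [hz]; ring
      have hyz : y * z = x ^ 2 - s ^ 3 := by rw [hz]; linear_combination -h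
      have h2 : x ^ 2 - (s ^ 2 - 2) * x * z + z ^ 2 = s ^ 3 := by
        rw [h3] at hyz
        linear_combination -hyz
      have hy0 : 0 < y := lt_of_lt_of_le hx0 hxy
      rcases le_or_gt 0 z with hz1 | hz1
      · have hzy : z < y := by
          by_contra hcon
          push Not at hcon
          have h1 : 0 < s ^ 3 := by positivity
          nlinarith
        obtain ⟨t, hst, hx', hz'⟩ := ih (x + z).toNat (by omega) x z hx0.le hz1 rfl h2
        refine ⟨t, hst, hx', ?_⟩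
        rw [h3]
        exact dvd_sub (dvd_mul_of_dvd_right hx' _) hz'
      · obtain ⟨v, hv⟩ : ∃ v : ℤ, v = -z := ⟨-z, rfl⟩
        have hv0 : 0 < v := by omega
        have hzv : z = -v := by omega
        have h1 : (x - v) ^ 2 = s ^ 2 * (s - x * v) := by
          rw [hzv] at h2
          linear_combination h2
        have hxv : 0 < x * v := mul_pos hx0 hv0
        have h4 : 0 ≤ s - x * v := by
          by_contra hcon2
          push Not at hcon2
          have h5 : s ^ 2 * (s - x * v) < 0 := mul_neg_of_pos_of_neg (by positivity) hcon2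
          have h6 := sq_nonneg (x - v)
          rw [h1] at h6
          exact absurd h5 (not_lt.mpr h6)
        rcases h4.eq_or_lt with h5 | h5
        · rw [← h5, mul_zero] at h1
          have h6 : x - v = 0 := pow_eq_zero_iff (by norm_num) |>.mp h1
          have h7 : v = x := by omega
          refine ⟨x, ?_, dvd_rfl, ?_⟩
          · rw [h7] at h5; linear_combination -h5
          · rw [h3, hzv, h7]
            exact ⟨s ^ 2 - 1, by ring⟩
        · exfalso
          have h6 : s ^ 2 ≤ (x - v) ^ 2 := by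
            rw [h1]
            exact le_mul_of_one_le_right (by positivity) h5
          have h7 : x < s := by nlinarith
          have h8 : v < s := by nlinarith
          have h9 : |x - v| < s := by rw [abs_lt]; constructor <;> linarith
          have h10 : (x - v) ^ 2 < s ^ 2 := by
            rw [← sq_abs (x - v)]
            exact pow_lt_pow_left₀ h9 (abs_nonneg _) (by norm_num)
          linarith
  intro x y hx hy hM h
  rcases le_total x y with hxy | hxy
  · exact key x y hx hxy hM h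
  · obtain ⟨t, hst, h1, h2⟩ := key y x hy hxy (by rw [add_comm]; exact hM) (by
      linear_combination h)
    exact ⟨t, hst, h2, h1⟩

/-- the case `N = 4 n` -/
theorem no_four {N n k l : ℕ} (hn : 1 ≤ n) (hk : Odd k) (hl0 : 1 ≤ l)
    (h : (k * 2 ^ n + 1) * (l * 2 ^ n + 1) = 2 ^ N + 1) (h4 : N = 4 * n) : False := by
  have hk0 : 1 ≤ k := hk.pos
  obtain ⟨b, s, hN, hs0, hkl, hkls⟩ := setup hk0 hl0 h
  have hbn : b = n := by omega
  subst hbn
  have hlodd : Odd l := by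
    have h1 : Even (k + l) := by
      rw [hkl]
      exact (Nat.even_pow.mpr ⟨even_two, by omega⟩).mul_right _
    exact (Nat.even_add'.mp h1).mp hk
  have hsodd : Odd s := by
    have h1 : Even (k * l + s) := by
      rw [hkls]
      exact (Nat.even_pow.mpr ⟨even_two, by omega⟩).mul_right _
    exact (Nat.even_add'.mp h1).mp (hk.mul hlodd)
  have hK : (0 : ℤ) < k := by exact_mod_cast hk0
  have hS : (0 : ℤ) < s := by exact_mod_cast hs0
  have hSo : Odd (s : ℤ) := by exact_mod_cast hsodd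
  have e1 : (k : ℤ) + l = 2 ^ b * s := by exact_mod_cast hkl
  have e2 : (k : ℤ) * l + s = 2 ^ b * 2 ^ b := by exact_mod_cast hkls
  obtain ⟨T, hT⟩ : ∃ T : ℤ, T = 2 ^ b := ⟨_, rfl⟩
  rw [← hT] at e1 e2
  have hT2 : 2 ≤ T := by
    rw [hT]
    calc (2 : ℤ) = 2 ^ 1 := by norm_num
      _ ≤ 2 ^ b := pow_le_pow_right₀ (by norm_num) hn
  obtain ⟨X, hX⟩ : ∃ X : ℤ, X = s * k - T := ⟨_, rfl⟩
  have e3 : (k : ℤ) ^ 2 = T * X + s := by
    rw [hX]
    linear_combination (k : ℤ) * e1 - e2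
  have hX0 : 0 ≤ X := by
    by_contra hcon
    push Not at hcon
    have h1 : (s : ℤ) ≤ s * k := by nlinarith
    have h2 : (s : ℤ) < T := by linarith
    have h3 : T * X ≤ - T := by nlinarith
    have h5 := sq_nonneg (k : ℤ)
    linarith
  have e4 : X ^ 2 - ((s : ℤ) ^ 2 - 2) * X * T + T ^ 2 = (s : ℤ) ^ 3 := by
    have h1 : (s : ℤ) * k = X + T := by linarith
    have h2 : (X + T) ^ 2 = (s : ℤ) ^ 2 * (T * X + s) := by
      rw [← h1, ← e3]; ring
    linear_combination h2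
  obtain ⟨t, hst, -, htT⟩ := descent0 hS (X + T).toNat X T hX0 (by omega) rfl e4
  have htodd : Odd t := by
    rw [hst] at hSo
    exact (Int.odd_pow.mp hSo).resolve_right (by norm_num)
  have hs1 : (s : ℤ) = 1 := by
    have h1 : t ^ 2 ∣ 2 ^ (2 * b) := by
      rw [mul_comm, pow_mul, ← hT]
      exact pow_dvd_pow_of_dvd htT 2
    rw [hst]
    exact eq_one_of_dvd_two_pow (by rw [← hst]; exact hS) htodd.pow h1
  rw [hs1] at e4
  nlinarith [mul_nonneg hX0 (by omega : (0 : ℤ) ≤ T), sq_nonneg X]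

/-- **Divisors of Fermat numbers.** -/
theorem fermat_div {m d : ℕ} (hm : 2 ≤ m) (hd : d ∣ 2 ^ 2 ^ m + 1)
    (h : d ≡ 1 [MOD 2 ^ 2 ^ (m - 2)]) : d = 1 ∨ d = 2 ^ 2 ^ m + 1 := by
  obtain ⟨e, he⟩ := hd
  by_contra hcon
  push Not at hcon
  obtain ⟨hd1, hdF⟩ := hcon
  have hF : 0 < 2 ^ 2 ^ m := by positivity
  have hd0 : d ≠ 0 := by rintro rfl; omega
  have he0 : e ≠ 0 := by rintro rfl; omega
  have he1 : e ≠ 1 := by rintro rfl; omega
  obtain ⟨n, k, hk, hnk⟩ := Nat.exists_eq_two_pow_mul_odd (n := d - 1) (by omega)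
  have hdk : d = k * 2 ^ n + 1 := by
    have : d = (d - 1) + 1 := by omega
    rw [this, hnk]; ring
  set j := 2 ^ (m - 2) with hj
  have hj1 : 1 ≤ j := Nat.one_le_two_pow
  have h2m : 2 ^ m = 4 * j := by
    obtain ⟨m', rfl⟩ := Nat.exists_eq_add_of_le hm
    rw [hj]
    have : 2 + m' - 2 = m' := by omega
    rw [this, pow_add]; norm_num
  have hjn : j ≤ n := by
    have h1 : 2 ^ j ∣ d - 1 := (Nat.modEq_iff_dvd' (by omega)).mp h.symm
    rw [hnk] at h1
    have h2 : (2 ^ j).Coprime k := by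
      exact Nat.Coprime.pow_left _ (Nat.coprime_two_left.mpr hk)
    have h3 : 2 ^ j ∣ 2 ^ n := h2.dvd_of_dvd_mul_right h1
    exact (Nat.pow_dvd_pow_iff_le_right (by norm_num)).mp h3
  have hdlt : d < 2 ^ 2 ^ m + 1 := by
    have h1 : d ≤ 2 ^ 2 ^ m + 1 := Nat.le_of_dvd (by omega) ⟨e, he⟩
    omega
  have hn2 : n < 2 ^ m := by
    have h1 : 2 ^ n ≤ d - 1 := by
      rw [hnk]; exact Nat.le_mul_of_pos_right _ hk.pos
    have h2 : 2 ^ n < 2 ^ 2 ^ m := by omega
    exact (Nat.pow_lt_pow_iff_right (by norm_num)).mp h2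
  have hel : 2 ^ n ∣ e - 1 := by
    have h1 : 2 ^ n ∣ 2 ^ 2 ^ m := pow_dvd_pow 2 hn2.le
    have h2 : 2 ^ 2 ^ m = k * e * 2 ^ n + (e - 1) := by
      have h3 : 2 ^ 2 ^ m + 1 = k * e * 2 ^ n + e := by rw [he, hdk]; ring
      omega
    rw [h2] at h1
    exact (Nat.dvd_add_right (Dvd.intro_left _ rfl)).mp h1
  obtain ⟨l, hl⟩ := hel
  have hl0 : 1 ≤ l := by
    rcases Nat.eq_zero_or_pos l with h1 | h1
    · rw [h1, mul_zero] at hl; omega
    · exact h1
  have hel2 : e = l * 2 ^ n + 1 := by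
    have : e = (e - 1) + 1 := by omega
    rw [this, hl]; ring
  have hfac : (k * 2 ^ n + 1) * (l * 2 ^ n + 1) = 2 ^ 2 ^ m + 1 := by
    rw [← hdk, ← hel2, he]
  have hn1 : 1 ≤ n := by omega
  rcases Nat.lt_or_ge (2 ^ m) (4 * n) with h5 | h5
  · rcases classify hn1 hk hl0 hfac h5 with ⟨h6, -⟩ | ⟨h6, -⟩
    · have h7 : 3 ∣ 2 ^ m := ⟨n, h6⟩
      have h8 := (Nat.Prime.dvd_of_dvd_pow Nat.prime_three h7)
      omega
    · omega
  · exact no_four hn1 hk hl0 hfac (by omega)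

/-- **A criterion for primality.** -/
theorem fermat_prime_iff {m : ℕ} (hm : 2 ≤ m) : (2 ^ 2 ^ m + 1).Prime ↔
    ∃ x : ℕ, 2 ^ 2 ^ m + 1 ∣ x ^ 2 ^ (2 ^ (m - 2) - 1) + 1 := by
  have hj1 : 1 ≤ 2 ^ (m - 2) := Nat.one_le_two_pow
  have hjm : 2 ^ (m - 2) ≤ 2 ^ m := Nat.pow_le_pow_right (by norm_num) (by omega)
  have hF : 0 < 2 ^ 2 ^ m := by positivity
  have hFeven : 2 ∣ 2 ^ 2 ^ m := dvd_pow_self 2 (by positivity)
  constructor
  · intro hp
    have : Fact (2 ^ 2 ^ m + 1).Prime := ⟨hp⟩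
    have hchar : ringChar (ZMod (2 ^ 2 ^ m + 1)) ≠ 2 := by
      rw [ZMod.ringChar_zmod_n]; omega
    obtain ⟨g, hg⟩ := FiniteField.exists_nonsquare hchar
    have hg0 : g ≠ 0 := by
      rintro rfl
      exact hg (IsSquare.zero)
    have h1 : g ^ ((2 ^ 2 ^ m + 1) / 2) ≠ 1 := fun h => hg ((ZMod.euler_criterion _ hg0).mpr h)
    have h2 : g ^ ((2 ^ 2 ^ m + 1) / 2) = -1 := by
      rcases ZMod.pow_div_two_eq_neg_one_or_one (2 ^ 2 ^ m + 1) hg0 with h | h
      · exact absurd h h1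
      · exact h
    have h3 : (2 ^ 2 ^ m + 1) / 2 = 2 ^ (2 ^ m - 2 ^ (m - 2)) * 2 ^ (2 ^ (m - 2) - 1) := by
      rw [← pow_add]
      have h4 : 2 ^ m = (2 ^ m - 2 ^ (m - 2) + (2 ^ (m - 2) - 1)) + 1 := by omega
      have h5 : 2 ^ 2 ^ m = 2 ^ (2 ^ m - 2 ^ (m - 2) + (2 ^ (m - 2) - 1)) * 2 := by
        conv_lhs => rw [h4]
        rw [pow_succ]
      omega
    rw [h3, pow_mul] at h2
    refine ⟨(g ^ 2 ^ (2 ^ m - 2 ^ (m - 2))).val, ?_⟩
    rw [← ZMod.natCast_eq_zero_iff]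
    push_cast
    rw [ZMod.natCast_zmod_val, h2]
    ring
  · rintro ⟨x, hx⟩
    set F := 2 ^ 2 ^ m + 1 with hFdef
    have hF1 : F ≠ 1 := by omega
    have hpp : (Nat.minFac F).Prime := Nat.minFac_prime hF1
    have hpF : Nat.minFac F ∣ F := Nat.minFac_dvd F
    obtain ⟨p, hp⟩ : ∃ p, p = Nat.minFac F := ⟨_, rfl⟩
    rw [← hp] at hpp hpF
    have : Fact p.Prime := ⟨hpp⟩
    have hp2 : p ≠ 2 := by
      rintro h2
      rw [h2] at hpF
      omega
    have h1 : ((x : ZMod p)) ^ 2 ^ (2 ^ (m - 2) - 1) = -1 := by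
      have h2 : ((x ^ 2 ^ (2 ^ (m - 2) - 1) + 1 : ℕ) : ZMod p) = 0 :=
        (ZMod.natCast_eq_zero_iff _ _).mpr (hpF.trans hx)
      push_cast at h2
      linear_combination h2
    have hne : (-1 : ZMod p) ≠ 1 := by
      have : Fact (2 < p) := ⟨lt_of_le_of_ne hpp.two_le (Ne.symm hp2)⟩
      exact ZMod.neg_one_ne_one
    have h2 : orderOf (x : ZMod p) = 2 ^ ((2 ^ (m - 2) - 1) + 1) := by
      refine orderOf_eq_prime_pow ?_ ?_
      · rw [h1]; exact hne
      · rw [pow_succ, pow_mul, h1]; ring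
    have hx0 : (x : ZMod p) ≠ 0 := by
      intro h0
      rw [h0, zero_pow (by positivity)] at h1
      have : (1 : ZMod p) = 0 := by linear_combination h1
      exact one_ne_zero this
    have h3 : orderOf (x : ZMod p) ∣ p - 1 := orderOf_dvd_of_pow_eq_one (ZMod.pow_card_sub_one_eq_one hx0)
    rw [h2, Nat.sub_add_cancel hj1] at h3
    have h4 : p ≡ 1 [MOD 2 ^ 2 ^ (m - 2)] := ((Nat.modEq_iff_dvd' hpp.one_le).mpr h3).symm
    rcases fermat_div hm hpF h4 with h5 | h5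
    · exact absurd h5 hpp.one_lt.ne'
    · rw [hFdef, ← h5]; exact hpp

end Pool.Agent.J4.H5.FD
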